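import Pool.Agent.K7.H74.AF.Stm

/-!
# Project AF, job V3: the variance for `k + 1` variables (helper99)
-/

set_option autoImplicit false

open MeasureTheory Finset

namespace Pool.Agent.K7.H99.AF

open Pool.Agent.K7.H74.AF

/-- a telescoping bound -/
theorem tele {ι : Type*} [DecidableEq ι] (s : Finset ι) (a m : ι → ℝ) (A D : ℝ) (hm : ∀ i, 0 ≤ m i)
    (hma : ∀ i, m i ≤ a i) (haA : ∀ i, a i ≤ A) (hD : ∀ i, a i - m i ≤ D) (hA : 0 ≤ A) (hD0 : 0 ≤ D) :
    A * (∏ i ∈ s, a i - ∏ i ∈ s, m i) ≤ s.card * D * A ^ s.card := by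
  induction s using Finset.induction_on with
  | empty => simp
  | insert j s hj ih =>
    rw [Finset.prod_insert hj, Finset.prod_insert hj, Finset.card_insert_of_notMem hj]
    have ha : ∀ i, 0 ≤ a i := fun i => (hm i).trans (hma i)
    have hP : ∏ i ∈ s, a i ≤ A ^ s.card := by
      calc ∏ i ∈ s, a i ≤ ∏ _i ∈ s, A := Finset.prod_le_prod (fun i _ => ha i) (fun i _ => haA i)
        _ = A ^ s.card := by simp
    have hP0 : 0 ≤ ∏ i ∈ s, a i := Finset.prod_nonneg fun i _ => ha i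
    have hPQ : ∏ i ∈ s, m i ≤ ∏ i ∈ s, a i := Finset.prod_le_prod (fun i _ => hm i) (fun i _ => hma i)
    set P := ∏ i ∈ s, a i
    set Q := ∏ i ∈ s, m i
    have h1 : (a j - m j) * P ≤ D * A ^ s.card :=
      mul_le_mul (hD j) hP hP0 hD0
    have h2 : m j * (A * (P - Q)) ≤ A * (s.card * D * A ^ s.card) :=
      mul_le_mul ((hma j).trans (haA j)) ih (mul_nonneg hA (by linarith)) hA
    have h3 : A * ((a j - m j) * P) ≤ A * (D * A ^ s.card) := mul_le_mul_of_nonneg_left h1 hA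
    calc A * (a j * P - m j * Q) = A * ((a j - m j) * P) + m j * (A * (P - Q)) := by ring
      _ ≤ A * (D * A ^ s.card) + A * (s.card * D * A ^ s.card) := add_le_add h3 h2
      _ = _ := by push_cast; ring

theorem sinc_bound (x : ℝ) : Real.sinc x ^ 2 ≤ 2 * (1 + x ^ 2)⁻¹ := by
  have h1 : |Real.sinc x| ≤ 1 := Real.abs_sinc_le_one x
  have h2 : Real.sinc x ^ 2 ≤ 1 := by
    rw [← sq_abs]; exact pow_le_one₀ (abs_nonneg _) h1
  have h3 : x ^ 2 * Real.sinc x ^ 2 ≤ 1 := by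
    rcases eq_or_ne x 0 with h | h
    · subst h; norm_num
    · rw [Real.sinc_of_ne_zero h, div_pow, mul_div_cancel₀]
      · exact Real.sin_sq_le_one x
      · positivity
  rw [← div_eq_mul_inv, le_div_iff₀ (by positivity)]
  nlinarith

/-- the pointwise bound -/
theorem point {k : ℕ} (hk : 2 ≤ k) {L Z a : ℝ} (hL : 1 ≤ L) (hZ : 1 ≤ Z) (ha : 0 < a)
    (E M : Fin (k + 1) → ℝ) (hM : ∀ i, 0 ≤ M i) (hME : ∀ i, M i ≤ E i) (hE1 : ∀ i, E i ≤ Z ^ 2)
    (hE2 : ∀ i, E i ≤ L * (Z + a ^ (-(2 : ℝ) / k)))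
    (hD : ∀ i, E i - M i ≤ L * (Z + Z ^ ((k : ℝ) / 2 + 1) * a ^ (1 / 2 : ℝ))) :
    ∏ i, E i - ∏ i, M i ≤ (2 * L * Z) ^ (k + 1) ∨
    ∏ i, E i - ∏ i, M i ≤
      8 * (k + 1) * L * (2 * L) ^ k * Z ^ (2 * k + 1) * (1 + Z ^ k * a) ^ (-(3 / 2) : ℝ) := by
  have hZ0 : 0 < Z := by linarith
  have hL0 : 0 < L := by linarith
  have hk0 : (0 : ℝ) < k := by exact_mod_cast (by omega : 0 < k)
  set p := a ^ (-(2 : ℝ) / k) with hp
  have hp0 : 0 < p := Real.rpow_pos_of_pos ha _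
  have hE0 : ∀ i, 0 ≤ E i := fun i => (hM i).trans (hME i)
  rcases le_or_gt p Z with hpZ | hpZ
  · left
    have h1 : ∏ i, E i ≤ (2 * L * Z) ^ (k + 1) := by
      calc ∏ i, E i ≤ ∏ _i : Fin (k + 1), (2 * L * Z) := by
            apply Finset.prod_le_prod (fun i _ => hE0 i)
            intro i _
            have := hE2 i
            nlinarith
        _ = _ := by simp
    have h2 : 0 ≤ ∏ i, M i := Finset.prod_nonneg fun i _ => hM i
    linarith
  · right
    set q := min (Z ^ 2) p with hq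
    have hq0 : 0 < q := lt_min (by positivity) hp0
    set A := 2 * L * q with hA
    have hA0 : 0 < A := by positivity
    set D := L * (Z + Z ^ ((k : ℝ) / 2 + 1) * a ^ (1 / 2 : ℝ)) with hDdef
    have hD0 : 0 ≤ D := by positivity
    have hEA : ∀ i, E i ≤ A := by
      intro i
      rw [hA, hq]
      rcases le_total (Z ^ 2) p with h | h
      · rw [min_eq_left h]
        have := hE1 i
        nlinarith [sq_nonneg Z]
      · rw [min_eq_right h]
        have := hE2 i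
        nlinarith
    have ht := tele Finset.univ E M A D hM hME hEA hD hA0.le hD0
    simp only [Finset.card_univ, Fintype.card_fin] at ht
    have ht2 : ∏ i, E i - ∏ i, M i ≤ ((k + 1 : ℕ) : ℝ) * D * A ^ k := by
      have e : ((k + 1 : ℕ) : ℝ) * D * A ^ (k + 1) = A * (((k + 1 : ℕ) : ℝ) * D * A ^ k) := by ring
      rw [e] at ht
      exact le_of_mul_le_mul_left ht hA0
    refine ht2.trans ?_
    set yy := Z ^ k * a with hy
    have hy0 : 0 < yy := by positivity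
    -- bound of D
    have hDb : D ≤ L * Z * (2 * (1 + yy) ^ (1 / 2 : ℝ)) := by
      have e1 : Z ^ ((k : ℝ) / 2 + 1) * a ^ (1 / 2 : ℝ) = Z * yy ^ (1 / 2 : ℝ) := by
        rw [hy, Real.mul_rpow (by positivity) ha.le, ← Real.rpow_natCast Z k, ← Real.rpow_mul hZ0.le,
          Real.rpow_add hZ0, Real.rpow_one]
        rw [show (k : ℝ) * (1 / 2) = (k : ℝ) / 2 by ring]
        ring
      have e2 : yy ^ (1 / 2 : ℝ) ≤ (1 + yy) ^ (1 / 2 : ℝ) :=
        Real.rpow_le_rpow hy0.le (by linarith) (by norm_num)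
      have e3 : 1 ≤ (1 + yy) ^ (1 / 2 : ℝ) := Real.one_le_rpow (by linarith) (by norm_num)
      rw [hDdef, e1]
      calc L * (Z + Z * yy ^ (1 / 2 : ℝ)) = L * Z * (1 + yy ^ (1 / 2 : ℝ)) := by ring
        _ ≤ L * Z * (2 * (1 + yy) ^ (1 / 2 : ℝ)) := by
          apply mul_le_mul_of_nonneg_left _ (by positivity)
          linarith
    -- bound of q ^ k
    have hqk : q ^ k ≤ 4 * Z ^ (2 * k) * (1 + yy) ^ (-2 : ℝ) := by
      have g1 : q ^ k ≤ Z ^ (2 * k) := by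
        calc q ^ k ≤ (Z ^ 2) ^ k := pow_le_pow_left₀ hq0.le (min_le_left _ _) k
          _ = Z ^ (2 * k) := by rw [← pow_mul]
      have g2 : q ^ k * a ^ 2 ≤ 1 := by
        have h1 : q ^ k ≤ p ^ k := pow_le_pow_left₀ hq0.le (min_le_right _ _) k
        have h2 : p ^ k * a ^ 2 = 1 := by
          rw [hp, ← Real.rpow_natCast (a ^ (-(2 : ℝ) / k)) k, ← Real.rpow_mul ha.le,
            ← Real.rpow_natCast a 2, ← Real.rpow_add ha]
          rw [show -(2 : ℝ) / k * k + ((2 : ℕ) : ℝ) = 0 by field_simp; norm_num]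
          exact Real.rpow_zero a
        have h3 : q ^ k * a ^ 2 ≤ p ^ k * a ^ 2 := mul_le_mul_of_nonneg_right h1 (by positivity)
        linarith
      have g3 : q ^ k * yy ^ 2 ≤ Z ^ (2 * k) := by
        have : q ^ k * yy ^ 2 = (q ^ k * a ^ 2) * Z ^ (2 * k) := by rw [hy]; ring
        rw [this]
        have : (0 : ℝ) ≤ Z ^ (2 * k) := by positivity
        nlinarith
      have hqk0 : 0 ≤ q ^ k := by positivity
      have g4 : q ^ k * (1 + yy) ^ 2 ≤ 4 * Z ^ (2 * k) := by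
        nlinarith [mul_nonneg hqk0 (sq_nonneg (1 - yy))]
      have e : (1 + yy) ^ (-2 : ℝ) = ((1 + yy) ^ 2)⁻¹ := by
        rw [Real.rpow_neg (by positivity)]
        norm_num
      rw [e, ← div_eq_mul_inv, le_div_iff₀ (by positivity)]
      exact g4
    have e4 : (1 + yy) ^ (1 / 2 : ℝ) * (1 + yy) ^ (-2 : ℝ) = (1 + yy) ^ (-(3 / 2) : ℝ) := by
      rw [← Real.rpow_add (by positivity)]
      norm_num
    calc ((k + 1 : ℕ) : ℝ) * D * A ^ k = ((k : ℝ) + 1) * (2 * L) ^ k * (D * q ^ k) := by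
          rw [hA]; push_cast; rw [mul_pow (2 * L) q k]; ring
      _ ≤ ((k : ℝ) + 1) * (2 * L) ^ k * ((L * Z * (2 * (1 + yy) ^ (1 / 2 : ℝ))) *
          (4 * Z ^ (2 * k) * (1 + yy) ^ (-2 : ℝ))) := by
          apply mul_le_mul_of_nonneg_left _ (by positivity)
          exact mul_le_mul hDb hqk (by positivity) (by positivity)
      _ = 8 * (k + 1) * L * (2 * L) ^ k * Z ^ (2 * k + 1) *
          ((1 + yy) ^ (1 / 2 : ℝ) * (1 + yy) ^ (-2 : ℝ)) := by ring
      _ = _ := by rw [e4]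

theorem v3 (h1 : StV1) (h2 : StV2) : StVar := by
  intro k η hk hη hη1
  obtain ⟨C₂, hC₂, hV2⟩ := h2 k hk
  have hC0 : 0 < C₂ := by linarith
  set K0 : ℝ := ∫ y : ℝ, (1 + ‖y‖) ^ (-(3 / 2) : ℝ) with hK0
  have hK0n : 0 ≤ K0 := integral_nonneg fun y => by positivity
  have hK0i : Integrable (fun y : ℝ => (1 + ‖y‖) ^ (-(3 / 2) : ℝ)) := by
    apply integrable_one_add_norm
    simp
    norm_num
  set W : ℝ := 4 * η ^ 2 * ((2 * C₂) ^ (k + 1) * (2 * (|(Real.pi * (2 * η))⁻¹| * Real.pi)) +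
    8 * (k + 1) * C₂ * (2 * C₂) ^ k * K0) with hW
  have hW0 : 0 ≤ W := by positivity
  refine ⟨W + 1, k + 1, by linarith, ?_⟩
  intro b
  set J := mx b with hJ
  set Z : ℝ := (3 : ℝ) ^ J with hZ
  have hZ1 : 1 ≤ Z := one_le_pow₀ (by norm_num)
  have hZ0 : 0 < Z := by linarith
  set L : ℝ := C₂ * (1 + J) with hLdef
  have hJ1 : (1 : ℝ) ≤ 1 + J := by linarith [(Nat.cast_nonneg J : (0 : ℝ) ≤ J)]
  have hL1 : 1 ≤ L := by rw [hLdef]; nlinarith
  have hbJ : ∀ i, b i ≤ J := fun i => Finset.le_sup (f := b) (Finset.mem_univ i)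
  refine (h1 k (k + 1) η hk hη b).trans (ENNReal.ofReal_le_ofReal ?_)
  set c : ℝ := Real.pi * (2 * η) with hc
  have hc0 : 0 < c := by have := Real.pi_pos; positivity
  -- the majorant
  set G : ℝ → ℝ := fun α => (2 * L * Z) ^ (k + 1) * (2 * (1 + (c * α) ^ 2)⁻¹) +
    8 * (k + 1) * L * (2 * L) ^ k * Z ^ (2 * k + 1) * (1 + ‖Z ^ k * α‖) ^ (-(3 / 2) : ℝ) with hG
  have i1 : Integrable (fun α : ℝ => (1 + (c * α) ^ 2)⁻¹) := by
    have := integrable_inv_one_add_sq.comp_mul_left' hc0.ne'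
    exact this
  have i2 : Integrable (fun α : ℝ => (1 + ‖Z ^ k * α‖) ^ (-(3 / 2) : ℝ)) := by
    have := hK0i.comp_mul_left' (R := Z ^ k) (by positivity)
    exact this
  have hGi : Integrable G := ((i1.const_mul 2).const_mul _).add (i2.const_mul _)
  have hGv : ∫ α, G α = (2 * L * Z) ^ (k + 1) * (2 * (|c⁻¹| * Real.pi)) +
      8 * (k + 1) * L * (2 * L) ^ k * Z ^ (2 * k + 1) * (|(Z ^ k)⁻¹| * K0) := by
    rw [hG, integral_add ((i1.const_mul 2).const_mul _) (i2.const_mul _), integral_const_mul,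
      integral_const_mul, integral_const_mul]
    have e1 := Measure.integral_comp_mul_left (fun x : ℝ => (1 + x ^ 2)⁻¹) c
    have e2 := Measure.integral_comp_mul_left (fun y : ℝ => (1 + ‖y‖) ^ (-(3 / 2) : ℝ)) (Z ^ k)
    simp only [smul_eq_mul] at e1 e2
    rw [e1, e2, integral_univ_inv_one_add_sq]
  have hf0 : ∀ α : ℝ, α ≠ 0 → 0 ≤ ∏ i, EB k (b i) α - ∏ i, ‖MB k (b i) α‖ ^ 2 := by
    intro α hα
    have : ∏ i, ‖MB k (b i) α‖ ^ 2 ≤ ∏ i, EB k (b i) α :=
      Finset.prod_le_prod (fun i _ => by positivity) (fun i _ => (hV2 (b i) J α (hbJ i) hα).1)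
    linarith
  have hae : ∀ᵐ α : ℝ, α ≠ 0 := by
    rw [ae_iff]
    simp
  have hle : ∫ α : ℝ, Real.sinc (Real.pi * (2 * η * α)) ^ 2 *
      (∏ i, EB k (b i) α - ∏ i, ‖MB k (b i) α‖ ^ 2) ≤ ∫ α, G α := by
    apply integral_mono_of_nonneg _ hGi
    · filter_upwards [hae] with α hα
      have hα' : 0 < |α| := abs_pos.2 hα
      have hp := point hk (L := L) (Z := Z) (a := |α|) hL1 hZ1 hα' (fun i => EB k (b i) α)
        (fun i => ‖MB k (b i) α‖ ^ 2) (fun i => by positivity)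
        (fun i => (hV2 (b i) J α (hbJ i) hα).1) (fun i => (hV2 (b i) J α (hbJ i) hα).2.1)
        (fun i => (hV2 (b i) J α (hbJ i) hα).2.2.1) (fun i => (hV2 (b i) J α (hbJ i) hα).2.2.2)
      have hs := sinc_bound (Real.pi * (2 * η * α))
      have hs' : Real.sinc (Real.pi * (2 * η * α)) ^ 2 ≤ 1 := by
        rw [← sq_abs]; exact pow_le_one₀ (abs_nonneg _) (Real.abs_sinc_le_one _)
      have hcα : Real.pi * (2 * η * α) = c * α := by rw [hc]; ring
      have hn : ‖Z ^ k * α‖ = Z ^ k * |α| := by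
        rw [norm_mul, Real.norm_eq_abs, Real.norm_eq_abs, abs_of_nonneg (by positivity)]
      have hf := hf0 α hα
      have hL0 : 0 < L := by linarith
      show Real.sinc (Real.pi * (2 * η * α)) ^ 2 *
        (∏ i, EB k (b i) α - ∏ i, ‖MB k (b i) α‖ ^ 2) ≤ G α
      rw [hG]
      simp only
      rw [hn]
      have t1 : 0 ≤ (2 * L * Z) ^ (k + 1) * (2 * (1 + (c * α) ^ 2)⁻¹) := by positivity
      have t2 : 0 ≤ 8 * (k + 1) * L * (2 * L) ^ k * Z ^ (2 * k + 1) *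
        (1 + Z ^ k * |α|) ^ (-(3 / 2) : ℝ) := by positivity
      rcases hp with hp | hp
      · have : Real.sinc (Real.pi * (2 * η * α)) ^ 2 *
          (∏ i, EB k (b i) α - ∏ i, ‖MB k (b i) α‖ ^ 2) ≤
            (2 * (1 + (c * α) ^ 2)⁻¹) * (2 * L * Z) ^ (k + 1) := by
          rw [← hcα]
          exact mul_le_mul hs hp hf (by positivity)
        linarith
      · have : Real.sinc (Real.pi * (2 * η * α)) ^ 2 *
          (∏ i, EB k (b i) α - ∏ i, ‖MB k (b i) α‖ ^ 2) ≤ 1 *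
            (8 * (k + 1) * L * (2 * L) ^ k * Z ^ (2 * k + 1) *
              (1 + Z ^ k * |α|) ^ (-(3 / 2) : ℝ)) :=
          mul_le_mul hs' hp hf zero_le_one
        linarith
    · filter_upwards [hae] with α hα
      exact mul_nonneg (by positivity) (hf0 α hα)
  refine (mul_le_mul_of_nonneg_left hle (by positivity)).trans ?_
  rw [hGv]
  have hZk : |(Z ^ k)⁻¹| = (Z ^ k)⁻¹ := abs_of_nonneg (by positivity)
  have e1 : 4 * η ^ 2 * ((2 * L * Z) ^ (k + 1) * (2 * (|c⁻¹| * Real.pi)) +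
      8 * (k + 1) * L * (2 * L) ^ k * Z ^ (2 * k + 1) * (|(Z ^ k)⁻¹| * K0)) =
      W * (1 + (J : ℝ)) ^ (k + 1) * Z ^ (k + 1) := by
    rw [hZk, hW, hLdef]
    have e2 : Z ^ (2 * k + 1) * ((Z ^ k)⁻¹ * K0) = Z ^ (k + 1) * K0 := by
      have : Z ^ (2 * k + 1) = Z ^ k * Z ^ (k + 1) := by rw [← pow_add]; congr 1; ring
      rw [this]
      field_simp
    have e3 : 8 * ((k : ℝ) + 1) * (C₂ * (1 + J)) * (2 * (C₂ * (1 + J))) ^ k * Z ^ (2 * k + 1) *
        ((Z ^ k)⁻¹ * K0) = 8 * ((k : ℝ) + 1) * (C₂ * (1 + J)) * (2 * (C₂ * (1 + J))) ^ k *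
        (Z ^ (2 * k + 1) * ((Z ^ k)⁻¹ * K0)) := by ring
    rw [e3, e2]
    generalize (1 + (J : ℝ)) = j
    ring
  rw [e1]
  have hZp : 0 ≤ (1 + (J : ℝ)) ^ (k + 1) * Z ^ (k + 1) := by positivity
  nlinarith

end Pool.Agent.K7.H99.AF
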